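import Pool.Agent.Y142.ZD.Stm
import Pool.Agent.Y379.ZI.BadRed
import Pool.Agent.W522.C.C4

set_option autoImplicit false

/-!
Task BADD of project Y142-ZD: a subspace which is stable under an open subgroup gives a factor of
the characteristic polynomial of each element with separable characteristic polynomial whose roots
have different powers.
-/

open Matrix Polynomial Filter Topology
open Pool.Agent.Y142.ZO Pool.Agent.Y142.ZI Pool.Agent.Y142.ZD Pool.Agent.Y379.ZI

namespace Pool.Agent.Y614.ZD

section field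
variable {F : Type} [Field F]

/-- a polynomial `P` with `P(x ^ k) = x` for all roots `x` of `Q` -/
theorem exists_poly_sep (Q : F[X]) (hm : Q.Monic) (hs : Q.Separable) (k : ℕ)
    (hr : ∀ x y : AlgebraicClosure F, aeval x Q = 0 → aeval y Q = 0 → x ^ k = y ^ k → x = y) :
    ∃ P : F[X], Q ∣ P.comp (X ^ k) - X := by
  classical
  set N : ℕ := Q.natDegree with hN
  have hdvd : ∀ R : F[X], aeval (AdjoinRoot.root Q) R = 0 → Q ∣ R := by
    intro R hR
    rwa [AdjoinRoot.aeval_eq, AdjoinRoot.mk_eq_zero] at hR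
  have hfin : Module.Finite F (AdjoinRoot Q) := (AdjoinRoot.powerBasis' hm).finite
  have hrank : Module.finrank F (AdjoinRoot Q) = N := by
    rw [(AdjoinRoot.powerBasis' hm).finrank, AdjoinRoot.powerBasis'_dim]
  let L : degreeLT F N →ₗ[F] AdjoinRoot Q :=
    (aeval (AdjoinRoot.root Q ^ k) : F[X] →ₐ[F] AdjoinRoot Q).toLinearMap ∘ₗ
      (degreeLT F N).subtype
  have hLa : ∀ P : degreeLT F N, L P = aeval (AdjoinRoot.root Q ^ k) (P : F[X]) := fun _ => rfl
  have hLinj : Function.Injective L := by
    rw [injective_iff_map_eq_zero]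
    intro P hP
    apply Subtype.ext
    show (P : F[X]) = 0
    by_contra hP0
    have h1 : Q ∣ (P : F[X]).comp (X ^ k) := by
      apply hdvd
      rw [Polynomial.aeval_comp, map_pow, aeval_X]
      exact hP
    have h2 : ((P : F[X]).map (algebraMap F (AlgebraicClosure F))) = 0 := by
      have hcard : Fintype.card (Q.rootSet (AlgebraicClosure F)) = N :=
        card_rootSet_eq_natDegree hs (IsAlgClosed.splits _)
      refine eq_zero_of_natDegree_lt_card_of_eval_eq_zero _
        (f := fun x : Q.rootSet (AlgebraicClosure F) => (x : AlgebraicClosure F) ^ k) ?_ ?_ ?_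
      · rintro ⟨x, hx⟩ ⟨y, hy⟩ hxy
        exact Subtype.ext (hr x y (aeval_eq_zero_of_mem_rootSet hx)
          (aeval_eq_zero_of_mem_rootSet hy) hxy)
      · rintro ⟨x, hx⟩
        obtain ⟨R, hR⟩ := h1
        have h3 := congrArg (aeval x) hR
        rw [map_mul, aeval_eq_zero_of_mem_rootSet hx, zero_mul, Polynomial.aeval_comp, map_pow,
          aeval_X] at h3
        rw [eval_map_algebraMap]
        exact h3
      · rw [hcard, natDegree_map]
        have h4 := mem_degreeLT.1 P.2
        exact (natDegree_lt_iff_degree_lt hP0).2 h4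
    rw [Polynomial.map_eq_zero] at h2
    exact hP0 h2
  have hLsurj : Function.Surjective L := by
    have h1 : Module.finrank F (degreeLT F N) = Module.finrank F (AdjoinRoot Q) := by
      rw [hrank, (degreeLTEquiv F N).finrank_eq, Module.finrank_fin_fun]
    have : Module.Finite F (degreeLT F N) := Module.Finite.equiv (degreeLTEquiv F N).symm
    exact (LinearMap.injective_iff_surjective_of_finrank_eq_finrank h1).1 hLinj
  obtain ⟨P, hP⟩ := hLsurj (AdjoinRoot.root Q)
  refine ⟨P, hdvd _ ?_⟩
  rw [map_sub, aeval_X, Polynomial.aeval_comp, map_pow, aeval_X, ← hLa, hP, sub_self]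

end field

/-- task BADD -/
theorem t : S_BADD := by
  intro ℓ _ N G _ _ _ _ ρ _ U W hU hWU σ hsep hdist
  set f : Module.End ℚ_[ℓ] (Fin N → ℚ_[ℓ]) := toLin' (ρ σ) with hf
  have hfc : f.charpoly = (ρ σ).charpoly := by
    rw [hf, Matrix.charpoly_toLin']
  -- a power in `U`
  obtain ⟨k, hk, hkU⟩ : ∃ k : ℕ, 0 < k ∧ σ ^ k ∈ U := by
    have : Finite (G ⧸ U) := U.quotient_finite_of_isOpen hU
    have hidx : U.index ≠ 0 := Subgroup.index_ne_zero_of_finite
    obtain ⟨n, hn, _, hmem⟩ := Subgroup.exists_pow_mem_of_index_ne_zero hidx σ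
    exact ⟨n, hn, hmem⟩
  have hpow : ∀ x, (f ^ k) x = ρ (σ ^ k) *ᵥ x := by
    intro x
    rw [map_pow, hf, ← toLin'_pow, toLin'_apply]
  obtain ⟨P, hP⟩ := exists_poly_sep _ (Matrix.charpoly_monic (ρ σ)) hsep k
    (fun x y hx hy hxy => hdist k x y hk hx hy hxy)
  rw [← hfc] at hP
  have hstab : ∀ w ∈ W, f w ∈ W := by
    apply stable_of_pow f W k _ P hP
    intro w hw
    rw [hpow]
    exact hWU _ hkU w hw
  have h1 : W ≤ W.comap f := hstab
  refine ⟨(f.restrict h1).charpoly, LinearMap.charpoly_monic _, LinearMap.charpoly_natDegree _, ?_⟩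
  rw [← hfc, Pool.Agent.W522.C.charpoly_eq_mul f W h1]
  exact dvd_mul_right _ _

end Pool.Agent.Y614.ZD
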